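import Pool.Agent.H341R2.KK.Defs

/-! Stubs.  NOT a dependency of anything: each task replaces its stubs in its own file. -/

set_option autoImplicit false

namespace Pool.Agent.H341R2.KK.BP

open Real Complex MeasureTheory Filter Topology Pool.Agent.H341R2.KK

/-! ### T1 : the function Φ -/

theorem Phi_even (t : ℝ) : Phi (-t) = Phi t := sorry

theorem Phi_pos (t : ℝ) : 0 < Phi t := sorry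

theorem Phi_continuous : Continuous Phi := sorry

theorem Phi_le : ∃ C : ℝ, 0 < C ∧ ∀ t : ℝ,
    Phi t ≤ C * Real.exp (9 / 2 * |t| - π * Real.exp (2 * |t|)) := sorry

theorem Phi_ge : ∀ t : ℝ, 0 ≤ t → Real.exp (-π * Real.exp (2 * t)) ≤ Phi t := sorry

/-! ### T2 : Ξ_λ is entire, growth -/

theorem Xi_entire (lam : ℝ) : Differentiable ℂ (Xi lam) := sorry

theorem Xi_conj (lam : ℝ) (x : ℝ) : Xi lam ((-x : ℝ) : ℂ) = (starRingEnd ℂ) (Xi lam (x : ℂ)) := sorry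

/-- same order of vanishing at `x` and `-x` -/
theorem Xi_order_neg (lam : ℝ) (x : ℝ) :
    analyticOrderAt (Xi lam) ((-x : ℝ) : ℂ) = analyticOrderAt (Xi lam) (x : ℂ) := sorry

theorem Xi_zero_ne (lam : ℝ) : Xi lam 0 ≠ 0 := sorry

theorem Xi_upper (ν : ℝ) (hν : 0 ≤ ν) : ∃ C R₀ : ℝ, 2 ≤ R₀ ∧ ∀ R : ℝ, R₀ ≤ R → ∀ z : ℂ, ‖z‖ ≤ R →
    ‖Xi (-ν) z‖ ≤ Real.exp (R * Real.log R / 2 + C * R) := sorry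

theorem Xi_lower (ν : ℝ) (hν : 0 ≤ ν) : ∃ C R₀ : ℝ, 2 ≤ R₀ ∧ ∀ y : ℝ, R₀ ≤ |y| →
    Real.exp (|y| * Real.log |y| / 2 - C * |y|) ≤ ‖Xi (-ν) (I * y)‖ := sorry

/-! ### T3 : Mellin transform and Gaussian convolution -/

theorem Phi_mellin (x : ℝ) :
    ∫ t : ℝ, (Phi t : ℂ) * cexp ((3 / 2 + I * x) * t) = J x * ∑' n : ℕ, (n : ℂ) ^ (-(2 + I * (x : ℂ))) :=
  sorry

theorem Xi_repr (ν : ℝ) (hν : 0 < ν) (x b : ℝ) :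
    Xi (-ν) ((x : ℂ) - I * b) = ((1 / Real.sqrt (4 * π * ν) : ℝ) : ℂ) *
      ∫ τ : ℝ, cexp (-((τ : ℂ) - I * ((b - 3 / 2 : ℝ) : ℂ)) ^ 2 / (4 * ν)) *
        (J (x - τ) * ∑' n : ℕ, (n : ℂ) ^ (-(2 + I * ((x - τ : ℝ) : ℂ)))) := sorry

/-! ### T4 : the Gamma factor J -/

theorem J_continuous : Continuous J := sorry

theorem J_ne (x : ℝ) : J x ≠ 0 := sorry

theorem J_near : ∃ C X₀ : ℝ, 0 < C ∧ 1 ≤ X₀ ∧ ∀ X : ℝ, X₀ ≤ X → ∀ u : ℝ, |u| ≤ Real.sqrt X →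
    ‖J (X + u) - J X * cexp (I * ell X * u)‖ ≤
      C / X * (1 + u ^ 2) * Real.exp (-(π * u / 4)) * ‖J X‖ := sorry

theorem J_far : ∃ C X₀ : ℝ, 0 < C ∧ 1 ≤ X₀ ∧ ∀ X : ℝ, X₀ ≤ X → ∀ u : ℝ,
    ‖J (X + u)‖ ≤ C * Real.exp (4 * |u|) * ‖J X‖ := sorry

/-! ### T5 : local formula, upper bound, center (uses T3, T4) -/

theorem local_formula (ν : ℝ) (hν : 1 ≤ ν) : ∃ C X₀ : ℝ, 0 < C ∧ 1 ≤ X₀ ∧ ∀ X : ℝ, X₀ ≤ X →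
    ∀ h b : ℝ, |h| ≤ X ^ (1 / 4 : ℝ) →
    ‖Xi (-ν) (((X + h : ℝ) : ℂ) - I * b) - (Real.exp ((b - 3 / 2) ^ 2 / (4 * ν)) : ℝ) * J X *
        cexp (I * ell X * h) * ∑' n : ℕ, trm ν (lg X / 2 - (b - 3 / 2) / (2 * ν)) (X + h) n‖ ≤
      Real.exp ((b - 3 / 2) ^ 2 / (4 * ν)) * ‖J X‖ * (C / X) * (1 + h ^ 2) *
        Real.exp (-(π * h / 4)) := sorry

theorem Xi_local_upper (ν : ℝ) (hν : 1 ≤ ν) : ∃ C X₀ : ℝ, 0 < C ∧ 1 ≤ X₀ ∧ ∀ X : ℝ, X₀ ≤ X →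
    ∀ x b : ℝ, ‖Xi (-ν) ((x : ℂ) - I * b)‖ ≤
      C * ‖J X‖ * Real.exp (4 * |x - X|) * Real.exp ((b - 3 / 2) ^ 2 / (4 * ν)) := sorry

theorem Xi_center (ν : ℝ) (hν : 1 ≤ ν) : ∃ X₀ : ℝ, 1 ≤ X₀ ∧ ∀ X : ℝ, X₀ ≤ X →
    ‖J X‖ ≤ ‖Xi (-ν) ((X : ℂ) - I * ((ν * lg X + 3 / 2 : ℝ) : ℂ))‖ := sorry

/-! ### T6 : mean value of exponential sums with Gaussian weights -/

theorem mv_var {ι : Type} (ν : ℝ) (hν : 1 ≤ ν) (s : Finset ι) (a : ι → ℂ) (lam v : ι → ℝ)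
    (θ : ℝ → ℝ) (hθc : Continuous θ) (T H D : ℝ) (hH : 0 < H)
    (hθ : ∀ X ∈ Set.Icc T (T + H), 0 ≤ θ X ∧ θ X ≤ 1 / (2 * Real.sqrt ν))
    (hsep : ∀ i ∈ s, ∀ j ∈ s, i ≠ j → D ≤ |lam i - lam j|) (hD : 0 ≤ D)
    (hcard : (s.card : ℝ) ≤ Real.exp ((H * D) ^ 2 / 4)) :
    ∫ X in T..(T + H), ‖∑ i ∈ s, a i * (Real.exp (-ν * (v i - θ X) ^ 2) : ℝ) *
        cexp (I * (lam i : ℂ) * X)‖ ^ 2 ≤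
      60 * H * ∑ i ∈ s, ‖a i‖ ^ 2 * Real.exp (-ν * v i ^ 2 / 2) := sorry

/-! ### T7 : the quadratic sum -/

theorem qsum : ∃ C : ℝ, 0 < C ∧ ∀ ν Y W : ℝ, 1 ≤ ν → 1 ≤ Y → 1 ≤ W → ∀ p : ℕ, Y < p →
    (p : ℝ) ≤ Real.exp 1 * Y → ∀ N : ℕ,
    ∑ n ∈ (Finset.Icc 1 N).erase p, (n : ℝ) ^ (-4 : ℝ) *
      (min (2 * W) (2 / |Real.log p - Real.log n|)) ^ 2 *
        Real.exp (-ν * (Real.log n - Real.log Y) ^ 2 / 2) ≤ C * W / Y ^ 3 := sorry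

/-! ### T8 : primes in (Y, e^δ Y] -/

theorem primes_count (δ : ℝ) (hδ : 0 < δ) (hδ1 : δ ≤ 1) : ∃ Y₀ : ℝ, ∀ Y : ℝ, Y₀ ≤ Y →
    δ / 2 * Y / Real.log Y ≤
      (((Finset.Icc 1 ⌊Real.exp δ * Y⌋₊).filter fun p : ℕ => p.Prime ∧ Y < (p : ℝ)).card : ℝ) := sorry

/-! ### T10 : Jensen's inequality for real zeros -/

theorem jensen_real (f : ℂ → ℂ) (hf : Differentiable ℂ f) (z₀ : ℂ) (hz₀ : f z₀ ≠ 0) (r M : ℝ)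
    (hr : 0 < r) (hM : ∀ z : ℂ, ‖z - z₀‖ = 2 * r → ‖f z‖ ≤ M) (Z : Finset ℂ)
    (hZ : ∀ z ∈ Z, ‖z - z₀‖ ≤ r) :
    ∑ z ∈ Z, (analyticOrderNatAt f z : ℝ) ≤ Real.log (M / ‖f z₀‖) / Real.log 2 := sorry

/-! ### T11 : many zeros -/

theorem many_zeros (f : ℂ → ℂ) (hf : Differentiable ℂ f) (h0 : f 0 ≠ 0) (C R₀ : ℝ)
    (hU : ∀ R : ℝ, R₀ ≤ R → ∀ z : ℂ, ‖z‖ ≤ R → ‖f z‖ ≤ Real.exp (R * Real.log R / 2 + C * R))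
    (hL : ∀ y : ℝ, R₀ ≤ |y| → Real.exp (|y| * Real.log |y| / 2 - C * |y|) ≤ ‖f (I * y)‖) :
    ∃ R₁ : ℝ, ∀ R : ℝ, R₁ ≤ R → ∃ Z : Finset ℂ, (∀ z ∈ Z, ‖z‖ ≤ R) ∧
      (1 / 1000 : ℝ) * R * Real.log R ≤ ∑ z ∈ Z, (analyticOrderNatAt f z : ℝ) := sorry

end Pool.Agent.H341R2.KK.BP
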