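import Mathlib

/-! Definitions for the disproof of the Ki-Kim conjecture (MP_023270_nt). -/

set_option autoImplicit false

namespace Pool.Agent.H341R2.KK

open Real Complex MeasureTheory Filter Topology

/-- `Φ(t) = 2 ∑_{n≥1} (2π²n⁴e^{9t/2} - 3πn²e^{5t/2}) e^{-πn²e^{2t}}` -/
noncomputable def Phi (t : ℝ) : ℝ :=
  2 * ∑' n : ℕ, (2 * π ^ 2 * ((n : ℝ) + 1) ^ 4 * Real.exp (9 * t / 2) -
    3 * π * ((n : ℝ) + 1) ^ 2 * Real.exp (5 * t / 2)) *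
      Real.exp (-π * ((n : ℝ) + 1) ^ 2 * Real.exp (2 * t))

/-- `Ξ_λ(z) = ∫ Φ(t) e^{λt²} e^{izt} dt` -/
noncomputable def Xi (lam : ℝ) (z : ℂ) : ℂ :=
  ∫ t : ℝ, (Phi t : ℂ) * cexp (lam * t ^ 2) * cexp (I * z * t)

/-- `J(x) = π^{-1-ix/2} (1+ix) Γ(2+ix/2)`; so `ξ(2+ix) = J(x) ζ(2+ix)` -/
noncomputable def J (x : ℝ) : ℂ :=
  cexp (-(1 + I * x / 2) * (Real.log π : ℝ)) * (1 + I * x) * Complex.Gamma (2 + I * x / 2)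

/-- `log (X / 2π)` -/
noncomputable def lg (X : ℝ) : ℝ := Real.log (X / (2 * π))

/-- `ℓ_X = ½ log (X/2π) + iπ/4` -/
noncomputable def ell (X : ℝ) : ℂ := ((lg X / 2 : ℝ) : ℂ) + I * ((π / 4 : ℝ) : ℂ)

/-- `n^{-2-ix} exp(ν (π/4 + i (log n - m))²)` (equal to `0` for `n = 0`) -/
noncomputable def trm (ν m x : ℝ) (n : ℕ) : ℂ :=
  (n : ℂ) ^ (-(2 + I * (x : ℂ))) *
    cexp (ν * (((π / 4 : ℝ) : ℂ) + I * ((Real.log n - m : ℝ) : ℂ)) ^ 2)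

end Pool.Agent.H341R2.KK
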